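import Pool.Agent.UTR.Stmts
import Pool.Agent.Helper64_FR.DERP

/-!
# Squad UTR, row GR1: the Gram identity off the diagonal
-/

open MeasureTheory Matrix Finset
open scoped ComplexConjugate

namespace Pool.Agent.UTR.H56

open Pool.Agent.Helper64_FR

variable {n : ℕ} {ρ : URep n} {D : Matrix (Fin n) (Fin n) ℂ →ₗ[ℂ] (ρ.Sp →L[ℂ] ρ.Sp)}

/-- the commutator, on vectors -/
theorem cm (hD : IsDer ρ D) (a b c d : Fin n) (x : ρ.Sp) :
    D (EE a b) (D (EE c d) x) = D (EE c d) (D (EE a b) x) + (if b = c then D (EE a d) x else 0) -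
      (if d = a then D (EE c b) x else 0) := by
  have h1 := hD.comm_eq (EE a b) (EE c d)
  have h2 : EE a b * EE c d = if b = c then EE a d else (0 : Matrix (Fin n) (Fin n) ℂ) := by
    by_cases h : b = c
    · subst h
      rw [if_pos rfl, EE, EE, Matrix.single_mul_single_same, mul_one]
    · rw [if_neg h, EE, EE, Matrix.single_mul_single_of_ne (1 : ℂ) _ _ _ h]
  have h3 : EE c d * EE a b = if d = a then EE c b else (0 : Matrix (Fin n) (Fin n) ℂ) := by
    by_cases h : d = a
    · subst h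
      rw [if_pos rfl, EE, EE, Matrix.single_mul_single_same, mul_one]
    · rw [if_neg h, EE, EE, Matrix.single_mul_single_of_ne (1 : ℂ) _ _ _ h]
  rw [h2, h3, map_sub] at h1
  have h4 := congrArg (fun T : ρ.Sp →L[ℂ] ρ.Sp => T x) h1
  have h5 : D (EE a b) (D (EE c d) x) - D (EE c d) (D (EE a b) x) =
      D (if b = c then EE a d else 0) x - D (if d = a then EE c b else 0) x := h4
  have h6 : D (if b = c then EE a d else 0) x = if b = c then D (EE a d) x else 0 := by
    by_cases h : b = c
    · rw [if_pos h, if_pos h]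
    · rw [if_neg h, if_neg h, map_zero]
      rfl
  have h7 : D (if d = a then EE c b else 0) x = if d = a then D (EE c b) x else 0 := by
    by_cases h : d = a
    · rw [if_pos h, if_pos h]
    · rw [if_neg h, if_neg h, map_zero]
      rfl
  rw [h6, h7] at h5
  rw [add_sub_assoc, ← h5]
  abel

/-- the adjoint -/
theorem adj (hD : IsDer ρ D) (a b : Fin n) (x y : ρ.Sp) :
    (inner ℂ (D (EE a b) x) y : ℂ) = inner ℂ x (D (EE b a) y) := by
  have h1 : star (D (EE a b)) = D (EE b a) := by
    rw [hD.star_eq]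
    congr 1
    rw [EE, EE, Matrix.star_eq_conjTranspose, Matrix.conjTranspose_single, star_one]
  rw [← h1, ContinuousLinearMap.star_eq_adjoint, ContinuousLinearMap.adjoint_inner_right]

theorem kill (hD : IsDer ρ D) {S : Finset (Fin n)} {i j : Fin n} (hi : i ∈ S) (hj : j ∈ S)
    {v : ρ.Sp} (hv : Fx ρ S v) : D (EE i j) v = 0 := by
  have h1 := DERP_proof FIX_proof n ρ D hD S i j hi hj
  have h2 := congrArg (fun T : ρ.Sp →L[ℂ] ρ.Sp => T v) h1
  have h3 : D (EE i j) (ρ.P S v) = 0 := h2
  rw [FIX.P_inv ρ S v hv] at h3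
  exact h3

theorem killt (hD : IsDer ρ D) (i : Fin n) {v : ρ.Sp} (hv : TInv ρ v) : D (EE i i) v = 0 :=
  kill hD (Finset.mem_singleton_self i) (Finset.mem_singleton_self i) (hv i)

/-- GR1 -/
theorem gr1 : GR1Stmt := by
  intro n ρ D hD S l hl v v' hv hv' hS hS' i hi j hj hij
  have hil : i ≠ l := fun h => hl (h ▸ hi)
  have hjl : j ≠ l := fun h => hl (h ▸ hj)
  -- the left side
  have e1 : D (EE l i) (D (EE i l) (D (EE l j) v')) =
      D (EE i l) (D (EE l i) (D (EE l j) v')) + D (EE l j) v' := by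
    rw [cm hD l i i l, if_pos rfl, if_pos rfl, cm hD l l l j, if_pos rfl, if_neg hjl,
      killt hD l hv', cm hD i i l j, if_neg hil, if_neg hij.symm, killt hD i hv']
    simp
  have e2 : D (EE j l) (D (EE i l) (D (EE l i) (D (EE l j) v'))) =
      D (EE i l) (D (EE j l) (D (EE l i) (D (EE l j) v'))) := by
    rw [cm hD j l i l, if_neg hil.symm, if_neg hjl.symm]
    simp
  have L : (inner ℂ (Tz ρ D i j l v) (Tz ρ D i j l v') : ℂ) =
      inner ℂ v (D (EE i l) (D (EE j l) (D (EE l i) (D (EE l j) v')))) +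
        inner ℂ v (D (EE j l) (D (EE l j) v')) := by
    change (inner ℂ (D (EE i l) (D (EE l j) v)) (D (EE i l) (D (EE l j) v')) : ℂ) = _
    rw [adj hD, adj hD, e1, map_add, e2, inner_add_right]
  -- the right side
  have f1 : D (EE l i) (D (EE j l) (D (EE l j) v')) =
      D (EE j l) (D (EE l i) (D (EE l j) v')) + D (EE l i) v' := by
    rw [cm hD l i j l, if_neg hij, if_pos rfl, cm hD j i l j, if_neg hil, if_pos rfl,
      kill hD hj hi hS']
    simp
  have R : (inner ℂ (Tz ρ D i i l v) (Tz ρ D j j l v') : ℂ) =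
      inner ℂ v (D (EE i l) (D (EE j l) (D (EE l i) (D (EE l j) v')))) +
        inner ℂ v (D (EE i l) (D (EE l i) v')) := by
    change (inner ℂ (D (EE i l) (D (EE l i) v)) (D (EE j l) (D (EE l j) v')) : ℂ) = _
    rw [adj hD, adj hD, f1, map_add, inner_add_right]
  -- the second terms
  have g1 : D (EE i j) (D (EE j l) (D (EE l i) v')) =
      D (EE i l) (D (EE l i) v') - D (EE j l) (D (EE l j) v') := by
    rw [cm hD i j j l, if_pos rfl, if_neg hil.symm, cm hD i j l i, if_neg hjl, if_pos rfl,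
      kill hD hi hj hS']
    simp [sub_eq_add_neg, add_comm]
  have g2 : (inner ℂ (D (EE j i) v) (D (EE j l) (D (EE l i) v')) : ℂ) = 0 := by
    rw [kill hD hj hi hS, inner_zero_left]
  rw [adj hD, g1, inner_sub_right, sub_eq_zero] at g2
  rw [L, R, g2]

end Pool.Agent.UTR.H56
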